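import Pool.Agent.H75.L.W662.CB.Stmts

set_option autoImplicit false

open MeasureTheory Filter Topology Complex
open scoped InnerProductSpace ENNReal

namespace Pool.Agent.W284.CB

open Pool.Agent.W662.CB

noncomputable section

variable {H : Type} [NormedAddCommGroup H] [InnerProductSpace ℂ H] [CompleteSpace H]
  {M : VonNeumannAlgebra H} {ξ : H} {U : ℝ → H →L[ℂ] H}

lemma star_mul_U (hU : IsModular M ξ U) (t : ℝ) : star (U t) * U t = 1 := by
  rw [hU.star_eq, ← hU.add, neg_add_cancel, hU.zero]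

lemma U_mul_star (hU : IsModular M ξ U) (t : ℝ) : U t * star (U t) = 1 := by
  rw [hU.star_eq, ← hU.add, add_neg_cancel, hU.zero]

lemma inner_star (A : H →L[ℂ] H) (v w : H) : ⟪v, A w⟫_ℂ = ⟪star A v, w⟫_ℂ := by
  rw [ContinuousLinearMap.star_eq_adjoint, ContinuousLinearMap.adjoint_inner_left]

lemma norm_U (hU : IsModular M ξ U) (t : ℝ) (v : H) : ‖U t v‖ = ‖v‖ := by
  have h : ⟪U t v, U t v⟫_ℂ = ⟪v, v⟫_ℂ := by
    rw [inner_star, ← ContinuousLinearMap.mul_apply, star_mul_U hU]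
    rfl
  rw [@norm_eq_sqrt_re_inner ℂ, @norm_eq_sqrt_re_inner ℂ, h]

lemma star_U_fix (hU : IsModular M ξ U) (t : ℝ) : star (U t) ξ = ξ := by
  rw [hU.star_eq, hU.fix]

lemma sgm_xi (hU : IsModular M ξ U) (t : ℝ) (x : H →L[ℂ] H) : sgm U t x ξ = U t (x ξ) := by
  unfold sgm
  simp only [ContinuousLinearMap.mul_apply, star_U_fix hU]

lemma vst_sgm (hU : IsModular M ξ U) (t : ℝ) (x : H →L[ℂ] H) :
    vst ξ (sgm U t x) = vst ξ x := by
  unfold vst
  rw [sgm_xi hU, inner_star, star_U_fix hU]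

lemma sgm_mul (hU : IsModular M ξ U) (t : ℝ) (x y : H →L[ℂ] H) :
    sgm U t (x * y) = sgm U t x * sgm U t y := by
  unfold sgm
  calc U t * (x * y) * star (U t) = U t * x * 1 * y * star (U t) := by noncomm_ring
    _ = U t * x * (star (U t) * U t) * y * star (U t) := by rw [star_mul_U hU]
    _ = _ := by noncomm_ring

lemma sgm_sub (t : ℝ) (x y : H →L[ℂ] H) : sgm U t (x - y) = sgm U t x - sgm U t y := by
  unfold sgm
  noncomm_ring

lemma sgm_star (t : ℝ) (x : H →L[ℂ] H) : star (sgm U t x) = sgm U t (star x) := by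
  unfold sgm
  simp only [star_mul, star_star, mul_assoc]

lemma sgm_neg (hU : IsModular M ξ U) (t : ℝ) (x : H →L[ℂ] H) : sgm U t (sgm U (-t) x) = x := by
  unfold sgm
  rw [← hU.star_eq, star_star]
  calc U t * (star (U t) * x * U t) * star (U t)
      = (U t * star (U t)) * x * (U t * star (U t)) := by noncomm_ring
    _ = x := by rw [U_mul_star hU, one_mul, mul_one]

lemma KM_sgm (hU : IsModular M ξ U) (t : ℝ) {a a' : H →L[ℂ] H} (h : KM M ξ a a') :
    KM M ξ (sgm U t a) (sgm U t a') := by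
  intro b hb
  have hb' : sgm U (-t) b ∈ M := hU.mem (-t) b hb
  have e1 : sgm U t a * b = sgm U t (a * sgm U (-t) b) := by
    rw [sgm_mul hU, sgm_neg hU]
  have e2 : b * sgm U t a' = sgm U t (sgm U (-t) b * a') := by
    rw [sgm_mul hU, sgm_neg hU]
  rw [e1, e2, vst_sgm hU, vst_sgm hU]
  exact h _ hb'

lemma vst_add (x y : H →L[ℂ] H) : vst ξ (x + y) = vst ξ x + vst ξ y := by
  unfold vst
  rw [ContinuousLinearMap.add_apply, inner_add_right]

lemma vst_zero : vst ξ (0 : H →L[ℂ] H) = 0 := by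
  unfold vst
  rw [ContinuousLinearMap.zero_apply, inner_zero_right]

lemma vst_smul (c : ℂ) (x : H →L[ℂ] H) : vst ξ (c • x) = c * vst ξ x := by
  unfold vst
  rw [ContinuousLinearMap.smul_apply, inner_smul_right]

lemma KM_sum {ι : Type} (s : Finset ι) (c : ι → ℂ) (a a' : ι → H →L[ℂ] H)
    (h : ∀ i, KM M ξ (a i) (a' i)) : KM M ξ (∑ i ∈ s, c i • a i) (∑ i ∈ s, c i • a' i) := by
  classical
  intro b hb
  induction s using Finset.induction_on with
  | empty => simp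
  | insert i s hi ih =>
    rw [Finset.sum_insert hi, Finset.sum_insert hi, add_mul, mul_add, vst_add, vst_add, ih,
      smul_mul_assoc, mul_smul_comm, vst_smul, vst_smul, h i b hb]

lemma av_const {α : Type} [Fintype α] [Nonempty α] (c : ℝ) : av (fun _ : α => c) = c := by
  unfold av
  rw [Finset.sum_const, Finset.card_univ, nsmul_eq_mul, ← mul_assoc,
    inv_mul_cancel₀ (by exact_mod_cast Fintype.card_ne_zero), one_mul]

lemma av_mono {α : Type} [Fintype α] {f g : α → ℝ} (h : ∀ x, f x ≤ g x) : av f ≤ av g := by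
  unfold av
  exact mul_le_mul_of_nonneg_left (Finset.sum_le_sum fun x _ => h x) (by positivity)

lemma av_equiv {α : Type} [Fintype α] (σ : α ≃ α) (f : α → ℝ) :
    av (fun x => f (σ x)) = av f := by
  unfold av
  rw [Equiv.sum_comp σ f]

lemma conj_I_pow (e : Fin 4) : (starRingEnd ℂ) (I ^ (e : ℕ)) = I ^ ((-e : Fin 4) : ℕ) := by
  have h3 : (I : ℂ) ^ 3 = -I := by rw [pow_succ, I_sq]; ring
  fin_cases e
  · simp
  · have : ((-(⟨1, by norm_num⟩ : Fin 4) : Fin 4) : ℕ) = 3 := by decide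
    rw [this, h3]
    simp
  · have : ((-(⟨2, by norm_num⟩ : Fin 4) : Fin 4) : ℕ) = 2 := by decide
    rw [this, I_sq]
    simp
  · have : ((-(⟨3, by norm_num⟩ : Fin 4) : Fin 4) : ℕ) = 1 := by decide
    rw [this]
    simp [h3]

/-- conjugate form of `C1` -/
lemma c1_conj (h1 : S_C1) {ι : Type} [Fintype ι] [DecidableEq ι] (v : ι → H) :
    av (fun e : ι → Fin 4 => ‖∑ m, ((starRingEnd ℂ) (I ^ (e m : ℕ))) • v m‖ ^ 2) =
      ∑ m, ‖v m‖ ^ 2 := by
  rw [← h1 H ι v, ← av_equiv (Equiv.neg (ι → Fin 4))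
    (fun e : ι → Fin 4 => ‖∑ m, (I ^ (e m : ℕ)) • v m‖ ^ 2)]
  congr 1
  funext e
  congr 2
  refine Finset.sum_congr rfl fun m _ => ?_
  rw [conj_I_pow]
  rfl

lemma star_fold (T : ℝ) (F : Finset ℤ) (K : ℕ) (C : ℤ → H →L[ℂ] H)
    (e : F → Fin 4) (k : F → Fin K) : star (fold U T F K C e k) =
      ∑ m : F, ((starRingEnd ℂ) (I ^ (e m : ℕ))) •
        sgm U (((k m : ℕ) : ℝ) * T) (star (C m)) := by
  unfold fold
  rw [star_sum]
  refine Finset.sum_congr rfl fun m _ => ?_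
  rw [star_smul, sgm_star]
  rfl

/-- the general estimate for both parts of `C5` -/
lemma comm_le (hU : IsModular M ξ U) (hξ : ‖ξ‖ = 1) (h5 : S_A5) (T : ℝ) (F : Finset ℤ) (K : ℕ)
    (D D1 : ℤ → H →L[ℂ] H) (h : ∀ m, KM M ξ (D m) (D1 m)) (c : F → ℂ) (k : F → Fin K) :
    commNorm M ξ (∑ m : F, c m • sgm U (((k m : ℕ) : ℝ) * T) (D m)) ^ 2 ≤
      ‖∑ m : F, c m • U (((k m : ℕ) : ℝ) * T) ((D m - D1 m) ξ)‖ ^ 2 := by
  obtain ⟨hA, -, hC, -⟩ := h5 H M ξ hξ
  have hk : KM M ξ (∑ m : F, c m • sgm U (((k m : ℕ) : ℝ) * T) (D m))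
      (∑ m : F, c m • sgm U (((k m : ℕ) : ℝ) * T) (D1 m)) :=
    KM_sum _ _ _ _ fun m => KM_sgm hU _ (h m)
  have h2 := hC _ _ hk
  have e : (∑ m : F, c m • sgm U (((k m : ℕ) : ℝ) * T) (D m) -
      ∑ m : F, c m • sgm U (((k m : ℕ) : ℝ) * T) (D1 m)) ξ =
      ∑ m : F, c m • U (((k m : ℕ) : ℝ) * T) ((D m - D1 m) ξ) := by
    rw [← Finset.sum_sub_distrib, ContinuousLinearMap.sum_apply]
    refine Finset.sum_congr rfl fun m _ => ?_
    rw [← smul_sub, ← sgm_sub, ContinuousLinearMap.smul_apply, sgm_xi hU]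
  rw [e] at h2
  exact pow_le_pow_left₀ (hA _) h2 2

theorem c5 (h1 : S_C1) (h5 : S_A5) : S_C5 := by
  intro H _ _ _ M ξ U hU hξ T F C C1 C2 K η hK hC1 hC2 hs1 hs2
  haveI : Nonempty (F → Fin K) := ⟨fun _ => ⟨0, hK⟩⟩
  constructor
  · refine le_trans (av_mono (g := fun _ => η ^ 2) fun k => ?_) (le_of_eq (av_const _))
    refine le_trans (av_mono fun e => comm_le hU hξ h5 T F K C C1 hC1
      (fun m => I ^ (e m : ℕ)) k) ?_
    rw [h1 H F (fun m => U (((k m : ℕ) : ℝ) * T) ((C m - C1 m) ξ))]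
    simp only [norm_U hU]
    rw [Finset.sum_coe_sort F (fun m => ‖(C m - C1 m) ξ‖ ^ 2)]
    exact hs1
  · refine le_trans (av_mono (g := fun _ => η ^ 2) fun k => ?_) (le_of_eq (av_const _))
    simp only [star_fold]
    refine le_trans (av_mono fun e => comm_le hU hξ h5 T F K (fun m => star (C m)) C2 hC2
      (fun m => (starRingEnd ℂ) (I ^ (e m : ℕ))) k) ?_
    rw [c1_conj h1 (fun m : F => U (((k m : ℕ) : ℝ) * T) ((star (C m) - C2 m) ξ))]
    simp only [norm_U hU]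
    rw [Finset.sum_coe_sort F (fun m => ‖(star (C m) - C2 m) ξ‖ ^ 2)]
    exact hs2

theorem c6 (h1 : S_C1) : S_C6 := by
  intro H _ _ _ M ξ U hU T F C K x hK hx
  haveI : Nonempty (F → Fin K) := ⟨fun _ => ⟨0, hK⟩⟩
  have key : ∀ k : F → Fin K, av (fun e : F → Fin 4 =>
      ‖(fold U T F K C e k * x - x * fold U T F K C e k) ξ‖ ^ 2) =
      ∑ m ∈ F, ‖(C m * x - x * C m) ξ‖ ^ 2 := by
    intro k
    have e1 : ∀ e : F → Fin 4, (fold U T F K C e k * x - x * fold U T F K C e k) ξ =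
        ∑ m : F, (I ^ (e m : ℕ)) • U (((k m : ℕ) : ℝ) * T) ((C m * x - x * C m) ξ) := by
      intro e
      unfold fold
      rw [Finset.sum_mul, Finset.mul_sum, ← Finset.sum_sub_distrib,
        ContinuousLinearMap.sum_apply]
      refine Finset.sum_congr rfl fun m _ => ?_
      rw [smul_mul_assoc, mul_smul_comm, ← smul_sub, ContinuousLinearMap.smul_apply,
        ← sgm_xi hU, sgm_sub, sgm_mul hU, sgm_mul hU, hx]
    simp only [e1]
    rw [h1 H F (fun m => U (((k m : ℕ) : ℝ) * T) ((C m * x - x * C m) ξ))]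
    simp only [norm_U hU]
    exact Finset.sum_coe_sort F (fun m => ‖(C m * x - x * C m) ξ‖ ^ 2)
  simp only [key]
  exact av_const _

end

end Pool.Agent.W284.CB
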